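import Pool.Agent.Helper35.PI.St2

/-!
Module G0 of project PI: jets of the inverse metric of a graph.
-/

namespace Helper28.PI

open Helper35.PI
open scoped ContDiff Manifold Topology ENNReal BigOperators
open MeasureTheory Set Filter

variable {n N : ℕ}

theorem cjg {V : Type} [NormedAddCommGroup V] [NormedSpace ℝ V] {φ : EE n × ℝ → V}
    {z : EE n × ℝ} (h : ContDiffAt ℝ ∞ φ z) (k : Fin n) :
    ContDiffAt ℝ ∞ (fun z' => jg φ z' k) z := by
  have h1 : ContDiffAt ℝ ∞ (fderiv ℝ φ) z := h.fderiv_right (m := ∞) (by simp)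
  exact h1.clm_apply contDiffAt_const

theorem evd {V : Type} [NormedAddCommGroup V] [NormedSpace ℝ V] {φ : EE n × ℝ → V}
    {z : EE n × ℝ} (h : ContDiffAt ℝ ∞ φ z) : ∀ᶠ z' in 𝓝 z, DifferentiableAt ℝ φ z' := by
  have h1 : ContDiffAt ℝ 1 φ z := h.of_le (by exact_mod_cast le_top)
  have h2 := h1.eventually (by simp)
  filter_upwards [h2] with z' hz'
  exact hz'.differentiableAt (by simp)

theorem dself {V : Type} [NormedAddCommGroup V] [NormedSpace ℝ V] {φ : EE n × ℝ → V}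
    {z : EE n × ℝ} (h : ContDiffAt ℝ ∞ φ z) : DifferentiableAt ℝ φ z := (evd h).self_of_nhds

theorem fd_mul {φ ψ : EE n × ℝ → ℝ} {z : EE n × ℝ} (hφ : DifferentiableAt ℝ φ z)
    (hψ : DifferentiableAt ℝ ψ z) (v : EE n × ℝ) :
    fderiv ℝ (fun z => φ z * ψ z) z v = φ z * fderiv ℝ ψ z v + ψ z * fderiv ℝ φ z v := by
  have : fderiv ℝ (fun z => φ z * ψ z) z = φ z • fderiv ℝ ψ z + ψ z • fderiv ℝ φ z :=
    (hφ.hasFDerivAt.mul hψ.hasFDerivAt).fderiv
  rw [this]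
  simp

theorem fd_inner {φ ψ : EE n × ℝ → EE N} {z : EE n × ℝ} (hφ : DifferentiableAt ℝ φ z)
    (hψ : DifferentiableAt ℝ ψ z) (v : EE n × ℝ) :
    fderiv ℝ (fun z => (inner ℝ (φ z) (ψ z) : ℝ)) z v
      = inner ℝ (φ z) (fderiv ℝ ψ z v) + inner ℝ (fderiv ℝ φ z v) (ψ z) :=
  fderiv_inner_apply ℝ hφ hψ v

theorem fd_csub {m : ℕ} (c : ℝ) (h : Fin m → EE n × ℝ → ℝ) {z : EE n × ℝ}
    (hd : ∀ i, DifferentiableAt ℝ (h i) z) (v : EE n × ℝ) :
    fderiv ℝ (fun z => c - ∑ i, h i z) z v = - ∑ i, fderiv ℝ (h i) z v := by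
  have h1 : HasFDerivAt (fun z => ∑ i, h i z) (∑ i, fderiv ℝ (h i) z) z :=
    HasFDerivAt.fun_sum fun i _ => (hd i).hasFDerivAt
  have := (h1.const_sub c).fderiv
  rw [this]
  simp

theorem fd_add {φ ψ : EE n × ℝ → ℝ} {z : EE n × ℝ} (hφ : DifferentiableAt ℝ φ z)
    (hψ : DifferentiableAt ℝ ψ z) (v : EE n × ℝ) :
    fderiv ℝ (fun z => φ z + ψ z) z v = fderiv ℝ φ z v + fderiv ℝ ψ z v := by
  have : fderiv ℝ (fun z => φ z + ψ z) z = fderiv ℝ φ z + fderiv ℝ ψ z :=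
    (hφ.hasFDerivAt.add hψ.hasFDerivAt).fderiv
  rw [this]
  simp

theorem fd_congr {V : Type} [NormedAddCommGroup V] [NormedSpace ℝ V] {φ ψ : EE n × ℝ → V}
    {z : EE n × ℝ} (h : φ =ᶠ[𝓝 z] ψ) : fderiv ℝ φ z = fderiv ℝ ψ z := h.fderiv_eq

theorem jgg_congr {V : Type} [NormedAddCommGroup V] [NormedSpace ℝ V] {φ ψ : EE n × ℝ → V}
    {z : EE n × ℝ} (h : φ =ᶠ[𝓝 z] ψ) (k l : Fin n) : jgg φ z k l = jgg ψ z k l := by
  have h1 : (fun z' => jg φ z' l) =ᶠ[𝓝 z] (fun z' => jg ψ z' l) := by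
    filter_upwards [h.eventuallyEq_nhds] with z' hz'
    show fderiv ℝ φ z' _ = fderiv ℝ ψ z' _
    rw [fd_congr hz']
  show fderiv ℝ (fun z' => jg φ z' l) z _ = fderiv ℝ (fun z' => jg ψ z' l) z _
  rw [fd_congr h1]

theorem jgg_csub {m : ℕ} (c : ℝ) (h : Fin m → EE n × ℝ → ℝ) {z : EE n × ℝ}
    (hd : ∀ i, ContDiffAt ℝ ∞ (h i) z) (k l : Fin n) :
    jgg (fun z => c - ∑ i, h i z) z k l = - ∑ i, jgg (h i) z k l := by
  have h1 : (fun z' => jg (fun z => c - ∑ i, h i z) z' l)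
      =ᶠ[𝓝 z] (fun z' => 0 - ∑ i, jg (h i) z' l) := by
    have : ∀ᶠ z' in 𝓝 z, ∀ i, DifferentiableAt ℝ (h i) z' :=
      eventually_all.2 fun i => evd (hd i)
    filter_upwards [this] with z' hz'
    show fderiv ℝ (fun z => c - ∑ i, h i z) z' _ = _
    rw [fd_csub c h hz', zero_sub]
    rfl
  show fderiv ℝ (fun z' => jg (fun z => c - ∑ i, h i z) z' l) z _ = _
  rw [fd_congr h1, fd_csub 0 (fun i z' => jg (h i) z' l) (fun i => dself (cjg (hd i) l))]
  rfl

/-- product with a function vanishing to second order -/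
theorem mul_jets {φ ψ : EE n × ℝ → ℝ} {z : EE n × ℝ} (hφ : ContDiffAt ℝ ∞ φ z)
    (hψ : ContDiffAt ℝ ∞ ψ z) (h0 : ψ z = 0) (h1 : fderiv ℝ ψ z = 0) :
    fderiv ℝ (fun z => φ z * ψ z) z = 0 ∧
    ∀ k l, jgg (fun z => φ z * ψ z) z k l = φ z * jgg ψ z k l := by
  constructor
  · ext v
    · rw [ContinuousLinearMap.comp_apply, fd_mul (dself hφ) (dself hψ), h0, h1]
      simp
    · rw [ContinuousLinearMap.comp_apply, fd_mul (dself hφ) (dself hψ), h0, h1]
      simp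
  · intro k l
    have e1 : (fun z' => jg (fun z => φ z * ψ z) z' l)
        =ᶠ[𝓝 z] (fun z' => φ z' * jg ψ z' l + ψ z' * jg φ z' l) := by
      filter_upwards [evd hφ, evd hψ] with z' a b
      exact fd_mul a b _
    show fderiv ℝ (fun z' => jg (fun z => φ z * ψ z) z' l) z _ = _
    rw [fd_congr e1, fd_add ((dself hφ).fun_mul (dself (cjg hψ l)))
      ((dself hψ).fun_mul (dself (cjg hφ l))), fd_mul (dself hφ) (dself (cjg hψ l)),
      fd_mul (dself hψ) (dself (cjg hφ l)), h0]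
    have e2 : jg ψ z l = 0 := by
      show fderiv ℝ ψ z _ = 0
      rw [h1]; rfl
    rw [e2, h1]
    show φ z * jgg ψ z k l + 0 * _ + (0 * _ + _ * 0) = _
    ring

/-- inner product of two functions vanishing at the point -/
theorem inner_jets {φ ψ : EE n × ℝ → EE N} {z : EE n × ℝ} (hφ : ContDiffAt ℝ ∞ φ z)
    (hψ : ContDiffAt ℝ ∞ ψ z) (h0 : φ z = 0) (h1 : ψ z = 0) :
    fderiv ℝ (fun z => (inner ℝ (φ z) (ψ z) : ℝ)) z = 0 ∧
    ∀ k l, jgg (fun z => (inner ℝ (φ z) (ψ z) : ℝ)) z k l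
      = inner ℝ (jg φ z k) (jg ψ z l) + inner ℝ (jg φ z l) (jg ψ z k) := by
  constructor
  · ext v
    · rw [ContinuousLinearMap.comp_apply, fd_inner (dself hφ) (dself hψ), h0, h1]
      simp
    · rw [ContinuousLinearMap.comp_apply, fd_inner (dself hφ) (dself hψ), h0, h1]
      simp
  · intro k l
    have e1 : (fun z' => jg (fun z => (inner ℝ (φ z) (ψ z) : ℝ)) z' l)
        =ᶠ[𝓝 z] (fun z' => (inner ℝ (φ z') (jg ψ z' l) : ℝ) + inner ℝ (jg φ z' l) (ψ z')) := by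
      filter_upwards [evd hφ, evd hψ] with z' a b
      exact fd_inner a b _
    show fderiv ℝ (fun z' => jg (fun z => (inner ℝ (φ z) (ψ z) : ℝ)) z' l) z _ = _
    rw [fd_congr e1, fd_add ((dself hφ).inner ℝ (dself (cjg hψ l)))
      ((dself (cjg hφ l)).inner ℝ (dself hψ)), fd_inner (dself hφ) (dself (cjg hψ l)),
      fd_inner (dself (cjg hφ l)) (dself hψ), h0, h1]
    simp only [inner_zero_left, inner_zero_right, zero_add, add_zero]
    rfl

theorem hG0 (hSM : StSM) (hG2 : StG2) (hJA : StJA) (hJB : StJB) : StG0 := by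
  intro n N x₀ L u t₀ hu i j
  have _ := hJA
  have _ := hJB
  set z₀ : EE n × ℝ := (0, t₀) with hz₀
  have g2 := hG2 n N x₀ L u t₀ hu
  have g2s := g2.self_of_nhds
  -- the joint map
  have hf : ContDiffAt ℝ ∞ (fun z : EE n × ℝ => x₀ + L z.1 + u z) z₀ := by
    refine ContDiffAt.add (contDiffAt_const.add ?_) hu.smooth
    exact L.toContinuousLinearMap.contDiff.contDiffAt.comp z₀ contDiffAt_fst
  have hsm := hSM n N (fun z : EE n × ℝ => x₀ + L z.1 + u z) z₀ hf g2s.2.2.2.2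
  obtain ⟨-, -, -, -, hgc, hgi, -⟩ := hsm
  have hGc : ∀ i j, ContDiffAt ℝ ∞ (Gf x₀ L u i j) z₀ := hgc
  have hGI : ∀ i j, ContDiffAt ℝ ∞ (GIf x₀ L u i j) z₀ := hgi
  -- the functions a_ij
  let a : Fin n → Fin n → EE n × ℝ → ℝ := fun i j z => inner ℝ (jg u z i) (jg u z j)
  have hG : ∀ᶠ z in 𝓝 z₀, ∀ i j, Gf x₀ L u i j z = (if i = j then 1 else 0) + a i j z := by
    filter_upwards [g2] with z hz
    exact hz.2.2.1
  have hui : ∀ i, ContDiffAt ℝ ∞ (fun z => jg u z i) z₀ := fun i => cjg hu.smooth i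
  have hac : ∀ i j, ContDiffAt ℝ ∞ (a i j) z₀ := fun i j => (hui i).inner ℝ (hui j)
  have ha0 : ∀ i j, a i j z₀ = 0 := by
    intro i j
    show inner ℝ (jg u z₀ i) (jg u z₀ j) = (0 : ℝ)
    rw [hu.du0 i, inner_zero_left]
  have haj : ∀ i j, fderiv ℝ (a i j) z₀ = 0 ∧ ∀ k l, jgg (a i j) z₀ k l
      = inner ℝ (jgg u z₀ k i) (jgg u z₀ l j) + inner ℝ (jgg u z₀ l i) (jgg u z₀ k j) :=
    fun i j => inner_jets (hui i) (hui j) (hu.du0 i) (hu.du0 j)
  -- the metric at z₀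
  have hG1 : gram (grf x₀ L u z₀.2) z₀.1 = 1 := by
    ext p q
    have := hG.self_of_nhds p q
    rw [ha0, add_zero] at this
    rw [Matrix.one_apply]
    exact this
  have hdet : ∀ᶠ z in 𝓝 z₀, (gram (grf x₀ L u z.2) z.1).det ≠ 0 := by
    have hcont : ContinuousAt (fun z : EE n × ℝ => (gram (grf x₀ L u z.2) z.1).det) z₀ := by
      have h1 : ContinuousAt (fun z : EE n × ℝ => gram (grf x₀ L u z.2) z.1) z₀ := by
        refine continuousAt_pi.2 fun p => continuousAt_pi.2 fun q => ?_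
        exact (hGc p q).continuousAt
      exact (continuous_id.matrix_det).continuousAt.comp h1
    refine hcont.eventually_ne ?_
    rw [hG1, Matrix.det_one]
    exact one_ne_zero
  -- the identity for the inverse
  have hinv : ∀ i j, GIf x₀ L u i j =ᶠ[𝓝 z₀]
      (fun z => (if i = j then (1 : ℝ) else 0) - ∑ m, GIf x₀ L u i m z * a m j z) := by
    intro i j
    filter_upwards [hG, hdet] with z hz hd
    have h1 : (gram (grf x₀ L u z.2) z.1)⁻¹ * gram (grf x₀ L u z.2) z.1 = 1 :=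
      Matrix.nonsing_inv_mul _ (isUnit_iff_ne_zero.2 hd)
    have h2 := congrFun (congrFun h1 i) j
    rw [Matrix.mul_apply, Matrix.one_apply] at h2
    have h3 : ∀ m, (gram (grf x₀ L u z.2) z.1)⁻¹ i m * gram (grf x₀ L u z.2) z.1 m j
        = (if m = j then GIf x₀ L u i m z else 0) + GIf x₀ L u i m z * a m j z := by
      intro m
      have := hz m j
      have e : gram (grf x₀ L u z.2) z.1 m j = (if m = j then 1 else 0) + a m j z := this
      rw [e]
      show GIf x₀ L u i m z * _ = _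
      split_ifs <;> ring
    rw [Finset.sum_congr rfl fun m _ => h3 m, Finset.sum_add_distrib] at h2
    rw [Finset.sum_ite_eq' Finset.univ j, if_pos (Finset.mem_univ j)] at h2
    rw [← h2]
    ring
  have hGI0 : ∀ i j, GIf x₀ L u i j z₀ = if i = j then 1 else 0 := by
    intro i j
    show (gram (grf x₀ L u z₀.2) z₀.1)⁻¹ i j = _
    rw [hG1, inv_one, Matrix.one_apply]
  have hmj : ∀ m, fderiv ℝ (fun z => GIf x₀ L u i m z * a m j z) z₀ = 0 ∧
      ∀ k l, jgg (fun z => GIf x₀ L u i m z * a m j z) z₀ k l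
        = GIf x₀ L u i m z₀ * jgg (a m j) z₀ k l :=
    fun m => mul_jets (hGI i m) (hac m j) (ha0 m j) (haj m j).1
  have hmc : ∀ m, ContDiffAt ℝ ∞ (fun z => GIf x₀ L u i m z * a m j z) z₀ :=
    fun m => (hGI i m).mul (hac m j)
  have hfd : ∀ v, fderiv ℝ (GIf x₀ L u i j) z₀ v = 0 := by
    intro v
    rw [fd_congr (hinv i j), fd_csub _ _ (fun m => dself (hmc m))]
    rw [Finset.sum_eq_zero, neg_zero]
    intro m _
    rw [(hmj m).1]
    rfl
  refine ⟨hGI i j, hGI0 i j, fun k => hfd _, hfd _, ?_⟩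
  intro k l
  rw [jgg_congr (hinv i j), jgg_csub _ _ hmc]
  congr 1
  rw [Finset.sum_congr rfl fun m _ => (hmj m).2 k l]
  simp only [hGI0, ite_mul, one_mul, zero_mul]
  rw [Finset.sum_ite_eq Finset.univ i, if_pos (Finset.mem_univ i)]
  exact (haj i j).2 k l

end Helper28.PI
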